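import Pool.Agent.helper52.WQ.All
import Pool.Agent.helper1.RZ.NIC
import Pool.Agent.helper1.RZ.QGUB
import Pool.Agent.helper1.RZ.QLVS
import Pool.Agent.helper1.RZC.AXS
import Pool.Agent.helper1.RZC.ZCI
import Pool.Agent.helper10.RZ.ALS
import Pool.Agent.helper10.RZ.BAS
import Pool.Agent.helper10.RZ.BDP
import Pool.Agent.helper10.RZ.BST
import Pool.Agent.helper10.RZ.CLV
import Pool.Agent.helper10.RZ.CNL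
import Pool.Agent.helper10.RZ.CNU
import Pool.Agent.helper10.RZ.DEN
import Pool.Agent.helper10.RZ.MUM
import Pool.Agent.helper10.RZ.RET
import Pool.Agent.helper10.RZ.RTA
import Pool.Agent.helper10.RZ.RTG
import Pool.Agent.helper10.RZ.RTP
import Pool.Agent.helper10.RZ.WOMB
import Pool.Agent.helper10.RZ.WRET
import Pool.Agent.helper10.RZ.WRTA
import Pool.Agent.helper10.RZ.WRTB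
import Pool.Agent.helper10.RZ.WRTG
import Pool.Agent.helper11.RZC.BBG
import Pool.Agent.helper13.RT.PISO
import Pool.Agent.helper13.RZ.QTOP
import Pool.Agent.helper13.RZC.GIM
import Pool.Agent.helper13.RZC.KIN
import Pool.Agent.helper14.RT.KUN
import Pool.Agent.helper14.RT.RSMP
import Pool.Agent.helper14.RZC.AXT
import Pool.Agent.helper16.RT.QALG
import Pool.Agent.helper17.RT.PLFL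
import Pool.Agent.helper17.RT.RMCV
import Pool.Agent.helper17.RV.KRF
import Pool.Agent.helper17.RV.STEP1
import Pool.Agent.helper19.RV.BA3
import Pool.Agent.helper19.RV.PTS
import Pool.Agent.helper19.RZC.CXU
import Pool.Agent.helper2.RT.S3V
import Pool.Agent.helper2.RZC.BUP
import Pool.Agent.helper20.RZC.PHL
import Pool.Agent.helper21.RZC.CXE
import Pool.Agent.helper24.RTD.RI4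
import Pool.Agent.helper24.RV.MI
import Pool.Agent.helper24.RV.PH1
import Pool.Agent.helper24.RZ.TRN
import Pool.Agent.helper24.RZC.ROT
import Pool.Agent.helper26.RT.RLIFT
import Pool.Agent.helper28.RZ.QTSU
import Pool.Agent.helper3.RV.GSE
import Pool.Agent.helper30.RTD.EGR
import Pool.Agent.helper30.RV.BA1
import Pool.Agent.helper30.RV.CNF
import Pool.Agent.helper30.RV.COC
import Pool.Agent.helper30.RV.DG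
import Pool.Agent.helper30.RV.DIR
import Pool.Agent.helper30.RV.GAL
import Pool.Agent.helper30.RV.GCN
import Pool.Agent.helper30.RV.GGL
import Pool.Agent.helper30.RV.GGR
import Pool.Agent.helper30.RV.GPD
import Pool.Agent.helper30.RV.GVA
import Pool.Agent.helper30.RV.INC
import Pool.Agent.helper30.RV.KRD
import Pool.Agent.helper30.RV.KRE
import Pool.Agent.helper30.RV.LEA
import Pool.Agent.helper30.RV.LEI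
import Pool.Agent.helper30.RV.LMB
import Pool.Agent.helper30.RV.LPI
import Pool.Agent.helper30.RV.LV
import Pool.Agent.helper30.RV.MA
import Pool.Agent.helper30.RV.MU1
import Pool.Agent.helper30.RV.P1A
import Pool.Agent.helper30.RV.P1L
import Pool.Agent.helper30.RV.P1U
import Pool.Agent.helper30.RV.P1W
import Pool.Agent.helper30.RV.PHI
import Pool.Agent.helper30.RV.PNX
import Pool.Agent.helper30.RV.PT1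
import Pool.Agent.helper30.RV.REACH1
import Pool.Agent.helper30.RV.REG
import Pool.Agent.helper30.RV.SEP
import Pool.Agent.helper30.RV.SHF
import Pool.Agent.helper30.RV.ST2
import Pool.Agent.helper30.RV.SUD
import Pool.Agent.helper30.RV.TR
import Pool.Agent.helper30.RZC.RTN
import Pool.Agent.helper31.RT.KIN
import Pool.Agent.helper31.RT.RPEX
import Pool.Agent.helper31.RZ.QTQO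
import Pool.Agent.helper31.RZC.CXS
import Pool.Agent.helper33.RV.TOW
import Pool.Agent.helper33.RZ.QEXZ
import Pool.Agent.helper33.RZC.BPL
import Pool.Agent.helper33.RZC.NFR
import Pool.Agent.helper34.RT.PEXA
import Pool.Agent.helper34.RV.FKL
import Pool.Agent.helper34.RV.GBD
import Pool.Agent.helper34.RV.GQE
import Pool.Agent.helper34.RV.SEQ1
import Pool.Agent.helper34.RZ.PHP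
import Pool.Agent.helper34.RZC.GSP
import Pool.Agent.helper39.RT.QRCR
import Pool.Agent.helper39.RV.GHP
import Pool.Agent.helper39.RV.GM1
import Pool.Agent.helper39.RV.GMF
import Pool.Agent.helper39.RV.GTC
import Pool.Agent.helper39.RZ.OML
import Pool.Agent.helper40.RV.GEN
import Pool.Agent.helper40.RV.STA
import Pool.Agent.helper40.RV.STP
import Pool.Agent.helper41.RT.REVT
import Pool.Agent.helper41.RTD.RI3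
import Pool.Agent.helper43.RZC.EXB
import Pool.Agent.helper44.RT.PFR
import Pool.Agent.helper44.RT.RANR
import Pool.Agent.helper44.RT.TPL
import Pool.Agent.helper45.RTD.CHC
import Pool.Agent.helper45.RTD.HLI
import Pool.Agent.helper45.RTD.HOL
import Pool.Agent.helper45.RTD.INF
import Pool.Agent.helper45.RV.B0B
import Pool.Agent.helper45.RV.GEE
import Pool.Agent.helper48.RT.S3N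
import Pool.Agent.helper48.RZ.SST
import Pool.Agent.helper49.RT.EVS
import Pool.Agent.helper50.RV.BRG
import Pool.Agent.helper50.RV.CHT
import Pool.Agent.helper51.RT.MEA
import Pool.Agent.helper51.RT.NCH
import Pool.Agent.helper51.RV.BA2
import Pool.Agent.helper51.RV.BD1
import Pool.Agent.helper51.RV.GLB
import Pool.Agent.helper51.RV.GML
import Pool.Agent.helper51.RV.GQL
import Pool.Agent.helper51.RV.GTH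
import Pool.Agent.helper51.RV.GZE
import Pool.Agent.helper51.RV.START
import Pool.Agent.helper52.RV.AFF
import Pool.Agent.helper52.RV.ALC
import Pool.Agent.helper52.RV.CMM
import Pool.Agent.helper52.RV.CSZ
import Pool.Agent.helper52.RV.HLQ
import Pool.Agent.helper52.RV.INJ
import Pool.Agent.helper52.RV.ISO
import Pool.Agent.helper52.RV.LOKA
import Pool.Agent.helper52.RV.LOVA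
import Pool.Agent.helper52.RV.MNI
import Pool.Agent.helper52.RV.NIX
import Pool.Agent.helper52.RV.NRE
import Pool.Agent.helper52.RV.SML
import Pool.Agent.helper52.RV.SpecW
import Pool.Agent.helper52.RV.VBD
import Pool.Agent.helper52.RV.VLM
import Pool.Agent.helper52.RV.Z1
import Pool.Agent.helper52.RZC.EXG
import Pool.Agent.helper53.RT.ORBG
import Pool.Agent.helper53.RT.QGTL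
import Pool.Agent.helper53.RT.QUBD
import Pool.Agent.helper53.RZ.QGPT
import Pool.Agent.helper53.RZC.HLZ
import Pool.Agent.helper54.RT.CSR
import Pool.Agent.helper54.RT.PPER
import Pool.Agent.helper54.RT.RLEA
import Pool.Agent.helper54.RT.RLEI
import Pool.Agent.helper54.RT.RLUN
import Pool.Agent.helper54.RT.RLV
import Pool.Agent.helper54.RT.RLVG
import Pool.Agent.helper54.RT.RMA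
import Pool.Agent.helper54.RT.RMI
import Pool.Agent.helper54.RT.S3A
import Pool.Agent.helper54.RT.S3G
import Pool.Agent.helper54.RT.S3L
import Pool.Agent.helper54.RT.S3M
import Pool.Agent.helper54.RT.S3P
import Pool.Agent.helper54.RT.S3Q
import Pool.Agent.helper54.RT.S3R
import Pool.Agent.helper54.RT.S3S
import Pool.Agent.helper54.RV.GEX
import Pool.Agent.helper54.RV.REB
import Pool.Agent.helper57.RTD.NRU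
import Pool.Agent.helper58.RZC.AXD
import Pool.Agent.helper58.RZC.CHL
import Pool.Agent.helper6.RT.IPG
import Pool.Agent.helper62.RZC.GZ0
import Pool.Agent.helper64.RT.QSTK
import Pool.Agent.helper64.RZ.QTWX
import Pool.Agent.helper64.RZC.EXS
import Pool.Agent.helper65.RT.QKNI
import Pool.Agent.helper65.RV.SCH
import Pool.Agent.helper66.RZC.XCON
import Pool.Agent.helper70.RT.RMS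
import Pool.Agent.helper70.RV.EV1
import Pool.Agent.helper70.RV.EXB
import Pool.Agent.helper70.RV.FPB
import Pool.Agent.helper70.RV.GEI
import Pool.Agent.helper70.RV.GEP
import Pool.Agent.helper70.RV.GFK
import Pool.Agent.helper70.RV.ISL
import Pool.Agent.helper70.RV.REC
import Pool.Agent.helper70.RV.ST1
import Pool.Agent.helper70.RZ.QHPC
import Pool.Agent.helper70.RZC.BRH
import Pool.Agent.helper71.RZ.QLOA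
import Pool.Agent.helper71.RZC.EXW
import Pool.Agent.helper73.RT.RBDY
import Pool.Agent.helper73.RTD.CSM
import Pool.Agent.helper74.RT.CBR
import Pool.Agent.helper74.RT.NBR
import Pool.Agent.helper74.RT.RNEAR
import Pool.Agent.helper74.RT.RSMB
import Pool.Agent.helper74.RT.RSMC
import Pool.Agent.helper74.RTD.ITR
import Pool.Agent.helper74.RZ.QPPB
import Pool.Agent.helper75.RT.QVLC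
import Pool.Agent.helper75.RT.RSMI
import Pool.Agent.helper75.RZC.NHU
import Pool.Agent.helper76.RZ.QCSA
import Pool.Agent.helper76.RZC.FBA
import Pool.Agent.helper77.RT.PAUT
import Pool.Agent.helper77.RZ.QSSG
import Pool.Agent.helper77.RZC.BWB
import Pool.Agent.helper79.RZ.PHE
import Pool.Agent.helper79.RZ.QPPA
import Pool.Agent.helper79.RZC.BEX
import Pool.Agent.helper81.RT.PHS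
import Pool.Agent.helper81.RT.QEXR
import Pool.Agent.helper81.RV.CEL
import Pool.Agent.helper81.RZ.QEXG
import Pool.Agent.helper85.RZ.NIB
import Pool.Agent.helper85.RZC.APX
import Pool.Agent.helper87.RT.QORC
import Pool.Agent.helper87.RZ.YEX
import Pool.Agent.helper87.RZC.BLO
import Pool.Agent.helper87.RZC.GIX
import Pool.Agent.helper88.RT.TKK
import Pool.Agent.helper88.RZ.QAFB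
import Pool.Agent.helper88.RZ.QAVZ
import Pool.Agent.helper88.RZ.QBCO
import Pool.Agent.helper88.RZ.QCNB
import Pool.Agent.helper88.RZ.QDAT
import Pool.Agent.helper88.RZ.QDEC
import Pool.Agent.helper88.RZ.QDUB
import Pool.Agent.helper88.RZ.QENA
import Pool.Agent.helper88.RZ.QENG
import Pool.Agent.helper88.RZ.QFLB
import Pool.Agent.helper88.RZ.QGLB
import Pool.Agent.helper88.RZ.QINV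
import Pool.Agent.helper88.RZ.QJMP
import Pool.Agent.helper88.RZ.QLIM
import Pool.Agent.helper88.RZ.QLVD
import Pool.Agent.helper88.RZ.QMAS
import Pool.Agent.helper88.RZ.QNUB
import Pool.Agent.helper88.RZ.QNZB
import Pool.Agent.helper88.RZ.QPBD
import Pool.Agent.helper88.RZ.QPFX
import Pool.Agent.helper88.RZ.QRCT
import Pool.Agent.helper88.RZ.QRMZ
import Pool.Agent.helper88.RZ.QRSD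
import Pool.Agent.helper88.RZ.QSHF
import Pool.Agent.helper88.RZ.QUIN
import Pool.Agent.helper9.RZ.OMB
import Pool.Agent.helper9.RZC.GJU
import Pool.Agent.helper90.RT.ORB
import Pool.Agent.helper90.RT.PGLU
import Pool.Agent.helper90.RT.PMPB
import Pool.Agent.helper90.RT.PUNQ
import Pool.Agent.helper90.RT.RPRB
import Pool.Agent.helper90.RT.SMU
import Pool.Agent.helper90.RTD.RI2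
import Pool.Agent.helper93.RT.QNAU
import Pool.Agent.helper93.RV.PHS
import Pool.Agent.helper95.RT.QPBM
import Pool.Agent.helper95.RV.NID
import Pool.Agent.helper95.RZC.PZA
import Pool.Agent.helper96.RV.GFM
import Pool.Agent.helper96.RZC.NHD
import Pool.Agent.helper96.RZC.PSZ
import Pool.Agent.helper97.RT.QBRG
import Pool.Agent.helper98.RT.PCMT
import Pool.Agent.helper98.RT.PEXL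
import Pool.Agent.helper98.RT.QBVZ
import Pool.Agent.helper98.RTD.RI1
import Pool.Agent.helper98.RZ.MXS
import Pool.Agent.helper98.RZ.QGEN
import Pool.Agent.helper98.RZC.BLJ
import Pool.Agent.helper99.RT.QLOC
import Pool.Agent.helper99.RZ.QPNI
import Pool.Agent.helper99.RZ.RTB
import Pool.Agent.helper99.RZC.BCL
import Pool.Agent.helper99.RZC.KSB

/-! Assembly of blocks C and G of THEOREM R (rows rt:): RVS.WRC0_stmt. Generated by a script. -/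

set_option autoImplicit false

theorem RTC0.RVS_SEP : RVS.SEP_stmt :=
  RVS.SEP V3A.KO1_v MPS.NI_ok MPS.ND_ok
theorem RTC0.RVS_BA1 : RVS.BA1_stmt :=
  RVS.BA1 
theorem RTC0.RVS_LPI : RVS.LPI_stmt :=
  RVS.LPI RTC0.RVS_SEP RTC0.RVS_BA1 V3A.NLP_v V3A.PCO_v
theorem RTC0.RVS_GBD : RVS.GBD_stmt :=
  RVS.GBD V3A.KO3_v MPS.NI_ok
theorem RTC0.RVS_PTS : RVS.PTS_stmt :=
  RVS.PTS V3A.KO1_v V3A.KO3_v MPS.NI_ok MPS.ND_ok RTC0.RVS_BA1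
theorem RTC0.RVS_BA2 : RVS.BA2_stmt :=
  RVS.BA2 
theorem RTC0.RVS_CNF : RVS.CNF_stmt :=
  RVS.CNF RTC0.RVS_SEP RTC0.RVS_GBD RTC0.RVS_PTS RTC0.RVS_BA2
theorem RTC0.RVS_LMB : RVS.LMB_stmt :=
  RVS.LMB RTC0.RVS_CNF RTC0.RVS_LPI RTC0.RVS_BA2 V3A.NORM_v V3.TDE
theorem RTC0.RVS_SUD : RVS.SUD_stmt :=
  RVS.SUD 
theorem RTC0.RTF_RLUN : RTF.RLUN_stmt :=
  RTF.RLUN 
theorem RTC0.RVS_STEP1 : RVS.STEP1_stmt :=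
  RVS.STEP1 RTC0.RTF_RLUN
theorem RTC0.RVS_SEQ1 : RVS.SEQ1_stmt :=
  RVS.SEQ1 RTC0.RVS_STEP1
theorem RTC0.RVS_P1A : RVS.P1A_stmt :=
  RVS.P1A MPS.NI_ok MPS.NH_ok
theorem RTC0.RVS_LEA : RVS.LEA_stmt :=
  RVS.LEA 
theorem RTC0.RVS_LEI : RVS.LEI_stmt :=
  RVS.LEI RTC0.RVS_LEA
theorem RTC0.RTF_RPRB : RTF.RPRB_stmt :=
  RTF.RPRB 
theorem RTC0.RTF_RMS : RTF.RMS_stmt :=
  RTF.RMS RTC0.RTF_RPRB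
theorem RTC0.RTF_RMI : RTF.RMI_stmt :=
  RTF.RMI RTC0.RTF_RMS
theorem RTC0.RVS_MI : RVS.MI_stmt :=
  RVS.MI RTC0.RTF_RMI
theorem RTC0.RVS_LV : RVS.LV_stmt :=
  RVS.LV RTC0.RVS_LEI RTC0.RVS_MI
theorem RTC0.RVS_P1U : RVS.P1U_stmt :=
  RVS.P1U 
theorem RTC0.RVS_MA : RVS.MA_stmt :=
  RVS.MA RTC0.RVS_MI
theorem RTC0.RVS_P1L : RVS.P1L_stmt :=
  RVS.P1L RTC0.RVS_LEA RTC0.RVS_LV RTC0.RVS_P1A RTC0.RVS_P1U RTC0.RVS_MI RTC0.RVS_MA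
theorem RTC0.RVS_MU1 : RVS.MU1_stmt :=
  RVS.MU1 RTC0.RVS_P1A RTC0.RVS_P1L RTC0.RVS_LEA MPS.HSM_ok
theorem RTC0.RVS_DG : RVS.DG_stmt :=
  RVS.DG 
theorem RTC0.RVS_PT1 : RVS.PT1_stmt :=
  RVS.PT1 RTC0.RVS_MU1 RTC0.RVS_P1A RTC0.RVS_P1U MPS.HMX_ok RTC0.RVS_LV
theorem RTC0.RVS_PHI : RVS.PHI_stmt :=
  RVS.PHI RTC0.RVS_P1U RTC0.RVS_PT1
theorem RTC0.RVS_PNX : RVS.PNX_stmt :=
  RVS.PNX RTC0.RVS_LEA RTC0.RVS_P1A RTC0.RVS_P1U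
theorem RTC0.RVS_INC : RVS.INC_stmt :=
  RVS.INC RTC0.RVS_DG RTC0.RVS_P1U RTC0.RVS_PHI RTC0.RVS_PNX MPS.NH_ok
theorem RTC0.RVS_REACH1 : RVS.REACH1_stmt :=
  RVS.REACH1 RTC0.RVS_LEA RTC0.RVS_P1A MPS.NH_ok MPS.NPL_ok RTC0.RVS_INC MPS.ND_ok RTC0.RVS_PT1
theorem RTC0.RTF_RNEAR : RTF.RNEAR_stmt :=
  RTF.RNEAR 
theorem RTC0.RTF_RBDY : RTF.RBDY_stmt :=
  RTF.RBDY RTC0.RTF_RNEAR RTC0.RTF_RLUN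
theorem RTC0.RTF_RSMB : RTF.RSMB_stmt :=
  RTF.RSMB RTC0.RTF_RNEAR
theorem RTC0.RTF_SMU : RTF.SMU_stmt :=
  RTF.SMU 
theorem RTC0.RTF_RSMP : RTF.RSMP_stmt :=
  RTF.RSMP RTC0.RTF_SMU
theorem RTC0.RTF_RSMI : RTF.RSMI_stmt :=
  RTF.RSMI RTC0.RTF_SMU
theorem RTC0.RTF_RSMC : RTF.RSMC_stmt :=
  RTF.RSMC RTC0.RTF_RSMB RTC0.RTF_RSMP RTC0.RTF_RSMI
theorem RTC0.RTF_PEXL : RTF.PEXL_stmt :=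
  RTF.PEXL 
theorem RTC0.RTF_RPEX : RTF.RPEX_stmt :=
  RTF.RPEX RTC0.RTF_RSMC RTC0.RTF_PEXL V3A.KO1_v V3A.KO3_v
theorem RTC0.RTF_RLIFT : RTF.RLIFT_stmt :=
  RTF.RLIFT 
theorem RTC0.RTF_REVT : RTF.REVT_stmt :=
  RTF.REVT RTC0.RTF_RPRB RTC0.RTF_RMI RTC0.RTF_RLUN RTC0.RTF_RPEX RTC0.RTF_RLIFT MPS.HCH_ok
theorem RTC0.RVS_BRG : RVS.BRG_stmt :=
  RVS.BRG 
theorem RTC0.RVS_EV1 : RVS.EV1_stmt :=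
  RVS.EV1 RTC0.RTF_RBDY RTC0.RTF_REVT RTC0.RVS_BRG RTC0.RVS_P1A RTC0.RVS_LEA RTC0.RVS_LEI RTC0.RVS_LV RTC0.RVS_MI RTC0.RVS_MA RTC0.RVS_PT1
theorem RTC0.RVS_PH1 : RVS.PH1_stmt :=
  RVS.PH1 RTC0.RVS_SEQ1 RTC0.RVS_MU1 RTC0.RVS_REACH1 MPS.CHEB_ok RTC0.RVS_EV1 RTC0.RVS_P1A RTC0.RTF_RLIFT RTC0.RTF_RPRB
theorem RTC0.RVS_P1W : RVS.P1W_stmt :=
  RVS.P1W RTC0.RVS_PH1
theorem RTC0.RVS_COC : RVS.COC_stmt :=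
  RVS.COC 
theorem RTC0.RVS_ST2 : RVS.ST2_stmt :=
  RVS.ST2 RTC0.RVS_DG RTC0.RVS_COC RTC0.RVS_PHI RTC0.RVS_PNX RTC0.RVS_PT1 MPS.NH_ok
theorem RTC0.RVS_TOW : RVS.TOW_stmt :=
  RVS.TOW RTC0.RVS_P1W RTC0.RVS_P1A RTC0.RVS_ST2 RTC0.RVS_PT1 V3A.KO3_v
theorem RTC0.RVS_ST1 : RVS.ST1_stmt :=
  RVS.ST1 RTC0.RVS_SUD RTC0.RVS_TOW MPS.NI_ok V3A.KO3_v
theorem RTC0.RVS_START : RVS.START_stmt :=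
  RVS.START RTC0.RVS_ST1 V3A.KO1_v V3A.KO3_v V3A.TUL_v MPS.NI_ok
theorem RTC0.RVS_STA : RVS.STA_stmt :=
  RVS.STA RTC0.RVS_START RTC0.RVS_CNF RTC0.RVS_LPI RTC0.RVS_LMB RTC0.RVS_BA1
theorem RTC0.RVS_CHT : RVS.CHT_stmt :=
  RVS.CHT V3S.NCH RTC0.RVS_LMB RTC0.RVS_LPI RTC0.RVS_BA1
theorem RTC0.RVS_EXB : RVS.EXB_stmt :=
  RVS.EXB V3A.CAF_v RTC0.RVS_SEP V3A.NPK_v RTC0.RVS_BA1 RTC0.RVS_LV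
theorem RTC0.RTF_S3G : RTF.S3G_stmt :=
  RTF.S3G 
theorem RTC0.RTF_S3A : RTF.S3A_stmt :=
  RTF.S3A RTC0.RTF_RLUN RTC0.RTF_S3G
theorem RTC0.RTF_S3S : RTF.S3S_stmt :=
  RTF.S3S RTC0.RTF_RLUN RTC0.RTF_S3G RTC0.RTF_S3A
theorem RTC0.RTF_S3Q : RTF.S3Q_stmt :=
  RTF.S3Q RTC0.RTF_S3S
theorem RTC0.RTF_RLEA : RTF.RLEA_stmt :=
  RTF.RLEA 
theorem RTC0.RTF_RLEI : RTF.RLEI_stmt :=
  RTF.RLEI RTC0.RTF_RLEA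
theorem RTC0.RTF_RLV : RTF.RLV_stmt :=
  RTF.RLV RTC0.RTF_RLEI RTC0.RTF_RMI
theorem RTC0.RTF_RMA : RTF.RMA_stmt :=
  RTF.RMA RTC0.RTF_RMI
theorem RTC0.RTF_S3L : RTF.S3L_stmt :=
  RTF.S3L RTC0.RTF_RLEA RTC0.RTF_RLV RTC0.RTF_RMI RTC0.RTF_RMA MPS.HAR_ok RTC0.RTF_S3A
theorem RTC0.RTF_S3M : RTF.S3M_stmt :=
  RTF.S3M RTC0.RTF_S3A RTC0.RTF_S3L RTC0.RTF_RLEA MPS.HSM_ok
theorem RTC0.RTF_S3P : RTF.S3P_stmt :=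
  RTF.S3P RTC0.RTF_S3L MPS.HSM_ok RTC0.RTF_S3A RTC0.RTF_RLEA RTC0.RTF_RLV
theorem RTC0.RTF_S3R : RTF.S3R_stmt :=
  RTF.S3R WPS.NPLX_x RTC0.RTF_RLEA RTC0.RTF_S3G RTC0.RTF_S3A RTC0.RTF_S3P
theorem RTC0.RTF_S3V : RTF.S3V_stmt :=
  RTF.S3V RTC0.RTF_S3L MPS.HSM_ok RTC0.RTF_S3A RTC0.RTF_RLEA
theorem RTC0.RTF_MEA : RTF.MEA_stmt :=
  RTF.MEA 
theorem RTC0.RTF_EVS : RTF.EVS_stmt :=
  RTF.EVS RTC0.RTF_RBDY RTC0.RTF_REVT RTC0.RTF_RLEI RTC0.RTF_RLEA RTC0.RTF_RLV RTC0.RTF_RMA RTC0.RTF_S3A MPS.HSM_ok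
theorem RTC0.RTF_S3N : RTF.S3N_stmt :=
  RTF.S3N RTC0.RTF_RLIFT RTC0.RTF_RPRB
theorem RTC0.RTF_PHS : RTF.PHS_stmt :=
  RTF.PHS RTC0.RTF_S3G RTC0.RTF_S3Q RTC0.RTF_S3M RTC0.RTF_S3R RTC0.RTF_S3V RTC0.RTF_MEA RTC0.RTF_EVS RTC0.RTF_S3N MPS.CHEB_ok
theorem RTC0.RTF_CSR : RTF.CSR_stmt :=
  RTF.CSR RTC0.RTF_PHS RTC0.RTF_S3G RTC0.RTF_S3A RTC0.RTF_S3P
theorem RTC0.RVS_NIX : RVS.NIX_stmt :=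
  RVS.NIX RTC0.RVS_LEA RTC0.RVS_LV
theorem RTC0.RVS_REC : RVS.REC_stmt :=
  RVS.REC V3A.CAF_v V3A.KO3_v RTC0.RVS_NIX
theorem RTC0.RVS_DIR : RVS.DIR_stmt :=
  RVS.DIR 
theorem RTC0.RVS_SCH : RVS.SCH_stmt :=
  RVS.SCH RTC0.RVS_DIR
theorem RTC0.RVS_STP : RVS.STP_stmt :=
  RVS.STP RTC0.RVS_CHT V3A.SGN_v RTC0.RVS_EXB RTC0.RVS_BRG RTC0.RTF_CSR RTC0.RVS_REC RTC0.RVS_SCH
theorem RTC0.RVS_REG : RVS.REG_stmt :=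
  RVS.REG RTC0.RVS_LMB RTC0.RVS_LPI
theorem RTC0.RVS_ALC : RVS.ALC_stmt :=
  RVS.ALC RTC0.RVS_STA RTC0.RVS_STP RTC0.RVS_REG
theorem RTC0.RVS_CSZ : RVS.CSZ_stmt :=
  RVS.CSZ RTC0.RVS_LMB
theorem RTC0.RVS_PHS : RVS.PHS_stmt :=
  RVS.PHS RTC0.RVS_CSZ V3A.CAF_v RTC0.RVS_BA1
theorem RTC0.RVS_TR : RVS.TR_stmt :=
  RVS.TR 
theorem RTC0.RVS_CEL : RVS.CEL_stmt :=
  RVS.CEL RTC0.RVS_SUD RTC0.RVS_TR RTC0.RVS_P1W RTC0.RVS_P1A RTC0.RVS_DG RTC0.RVS_COC V3A.KO1_v V3A.KO3_v V3A.TUL_v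
theorem RTC0.RVS_SML : RVS.SML_stmt :=
  RVS.SML RTC0.RVS_CEL
theorem RTC0.RTDC_ITR : RTDC.ITR_stmt :=
  RTDC.ITR 
theorem RTC0.RVS_BD1 : RVS.BD1_stmt :=
  RVS.BD1 RTC0.RVS_BA1 RTC0.RTDC_ITR
theorem RTC0.RVS_NRE : RVS.NRE_stmt :=
  RVS.NRE RTC0.RTDC_ITR
theorem RTC0.RTDH_RI1 : RTDH.RI1_stmt :=
  RTDH.RI1 RTC0.RTDC_ITR
theorem RTC0.RTDH_RI2 : RTDH.RI2_stmt :=
  RTDH.RI2 RTC0.RTDH_RI1 RTC0.RTDC_ITR V3.KO0 V3A.KO1_v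
theorem RTC0.RTDH_RI3 : RTDH.RI3_stmt :=
  RTDH.RI3 RTC0.RTDH_RI1 RTC0.RTDH_RI2 V3A.KO3_v RTC0.RTDC_ITR
theorem RTC0.RTDH_NRU : RTDH.NRU_stmt :=
  RTDH.NRU 
theorem RTC0.RTDH_RI4 : RTDH.RI4_stmt :=
  RTDH.RI4 RTC0.RTDH_NRU RTC0.RTDH_RI1 RTC0.RTDH_RI2 V3A.KO1_v V3A.KO3_v RTC0.RTDC_ITR
theorem RTC0.RTDH_CSM : RTDH.CSM_stmt :=
  RTDH.CSM RTC0.RTDH_RI3 RTC0.RTDH_RI4
theorem RTC0.RTDH_CHC : RTDH.CHC_stmt :=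
  RTDH.CHC 
theorem RTC0.RTDH_INF : RTDH.INF_stmt :=
  RTDH.INF 
theorem RTC0.RTDH_HLI : RTDH.HLI_stmt :=
  RTDH.HLI RTC0.RTDH_CHC RTC0.RTDH_INF RTC0.RTDC_ITR
theorem RTC0.RTDH_HOL : RTDH.HOL_stmt :=
  RTDH.HOL RTC0.RTDH_CSM RTC0.RTDH_HLI RTC0.RTDC_ITR
theorem RTC0.RVS_NID : RVS.NID_stmt :=
  RVS.NID RTC0.RVS_ALC RTC0.RVS_PHS RTC0.RVS_REG RTC0.RVS_SML RTC0.RVS_BA1 RTC0.RVS_BD1 RTC0.RVS_NRE RTC0.RVS_SCH RTC0.RTDH_HOL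
theorem RTC0.RVS_INJ : RVS.INJ_stmt :=
  RVS.INJ RTC0.RVS_NID RTC0.RVS_SCH RTC0.RVS_BA1 RTC0.RVS_BD1
theorem RTC0.RVS_AFF : RVS.AFF_stmt :=
  RVS.AFF RTC0.RVS_INJ V3.KO0 V3A.KO3_v
theorem RTC0.RVS_FKL : RVS.FKL_stmt :=
  RVS.FKL RTC0.RVS_AFF RTC0.RVS_INJ RTC0.RVS_BA1 RTC0.RVS_BD1
theorem RTC0.RVS_HLQ : RVS.HLQ_stmt :=
  RVS.HLQ RTC0.RVS_INJ RTC0.RVS_FKL RTC0.RVS_BA1 RTC0.RVS_BD1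
theorem RTC0.RVS_SHF : RVS.SHF_stmt :=
  RVS.SHF 
theorem RTC0.RVS_KRE : RVS.KRE_stmt :=
  RVS.KRE RTC0.RVS_P1W RTC0.RVS_INC RTC0.RVS_COC RTC0.RVS_SHF RTC0.RVS_TR
theorem RTC0.RVS_KRD : RVS.KRD_stmt :=
  RVS.KRD RTC0.RVS_SUD RTC0.RVS_KRE
theorem RTC0.RVS_MNI : RVS.MNI_stmt :=
  RVS.MNI RTC0.RVS_KRD RTC0.RVS_SEP RTC0.RVS_BA1 RTC0.RVS_SCH
theorem RTC0.RVS_ISL : RVS.ISL_stmt :=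
  RVS.ISL RTC0.RVS_PHS RTC0.RVS_SCH RTC0.RVS_BA1 RTC0.RVS_BD1 RTC0.RVS_LV RTC0.RVS_LEA
theorem RTC0.RVS_ISO : RVS.ISO_stmt :=
  RVS.ISO RTC0.RVS_ISL RTC0.RVS_ALC RTC0.RVS_LMB RTC0.RVS_SCH
theorem RTC0.RVS_LOKA : RVS.LOKA_stmt :=
  RVS.LOKA RTC0.RVS_LPI RTC0.RVS_SEP RTC0.RVS_LMB RTC0.RVS_HLQ RTC0.RVS_INJ RTC0.RVS_SML RTC0.RVS_FKL RTC0.RVS_AFF RTC0.RVS_MNI RTC0.RVS_ISO RTC0.RVS_CEL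
theorem RTC0.RVS_VBD : RVS.VBD_stmt :=
  RVS.VBD RTC0.RVS_NID RTC0.RVS_SCH RTC0.RVS_BA1
theorem RTC0.RVS_BA3 : RVS.BA3_stmt :=
  RVS.BA3 RTC0.RVS_BA1 RTC0.RVS_BD1
theorem RTC0.RVS_VLM : RVS.VLM_stmt :=
  RVS.VLM RTC0.RVS_VBD V3.TMO V3.TDE RTC0.RVS_BA3
theorem RTC0.RVS_CMM : RVS.CMM_stmt :=
  RVS.CMM RTC0.RVS_VBD RTC0.RVS_AFF RTC0.RVS_INJ RTC0.RVS_BA1
theorem RTC0.RVS_LOVA : RVS.LOVA_stmt :=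
  RVS.LOVA RTC0.RVS_VLM RTC0.RVS_CMM
theorem RTC0.RVS_GLB : RVS.GLB_stmt :=
  RVS.GLB RTC0.RVS_BA1
theorem RTC0.RVS_GGL : RVS.GGL_stmt :=
  RVS.GGL RTC0.RVS_BA2 RTC0.RVS_GLB
theorem RTC0.RVS_GAL : RVS.GAL_stmt :=
  RVS.GAL RTC0.RVS_BA1 RTC0.RVS_BD1 RTC0.RVS_GLB V3A.TUL_v
theorem RTC0.RVS_GEX : RVS.GEX_stmt :=
  RVS.GEX RTC0.RVS_BA1
theorem RTC0.RVS_KRF : RVS.KRF_stmt :=
  RVS.KRF RTC0.RVS_KRE RTC0.RVS_SUD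
theorem RTC0.RVS_GEE : RVS.GEE_stmt :=
  RVS.GEE RTC0.RVS_GEX RTC0.RVS_KRF
theorem RTC0.RVS_GFK : RVS.GFK_stmt :=
  RVS.GFK RTC0.RVS_BA3
theorem RTC0.RVS_GQE : RVS.GQE_stmt :=
  RVS.GQE RTC0.RVS_GEE RTC0.RVS_GLB RTC0.RVS_GFK V3A.REMO_v V3A.PCO_v
theorem RTC0.RVS_GTH : RVS.GTH_stmt :=
  RVS.GTH 
theorem RTC0.RVS_GGR : RVS.GGR_stmt :=
  RVS.GGR RTC0.RVS_BA1 RTC0.RVS_GLB RTC0.RVS_LPI RTC0.RVS_REG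
theorem RTC0.RVS_GSE : RVS.GSE_stmt :=
  RVS.GSE RTC0.RVS_BA1 RTC0.RVS_BD1 RTC0.RVS_GLB
theorem RTC0.RVS_GMF : RVS.GMF_stmt :=
  RVS.GMF RTC0.RVS_GSE RTC0.RVS_GLB V3A.TUL_v
theorem RTC0.RVS_GM1 : RVS.GM1_stmt :=
  RVS.GM1 RTC0.RVS_GSE V3A.TUL_v
theorem RTC0.RVS_GHP : RVS.GHP_stmt :=
  RVS.GHP RTC0.RVS_BA1 RTC0.RVS_GLB
theorem RTC0.RVS_GTC : RVS.GTC_stmt :=
  RVS.GTC RTC0.RVS_REG RTC0.RVS_LPI RTC0.RVS_BA2 RTC0.RVS_BD1 RTC0.RVS_GHP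
theorem RTC0.RVS_GZE : RVS.GZE_stmt :=
  RVS.GZE RTC0.RVS_GHP RTC0.RVS_GTC V3A.THM_v RTC0.RVS_REG RTC0.RVS_BD1 RTC0.RVS_BA2
theorem RTC0.RVS_GPD : RVS.GPD_stmt :=
  RVS.GPD RTC0.RVS_BD1
theorem RTC0.RVS_GCN : RVS.GCN_stmt :=
  RVS.GCN RTC0.RVS_BA1 RTC0.RVS_BD1 RTC0.RVS_GZE RTC0.RVS_GHP RTC0.RVS_GPD
theorem RTC0.RVS_GEP : RVS.GEP_stmt :=
  RVS.GEP MPS.NR_ok RTC0.RVS_LV RTC0.RTDC_ITR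
theorem RTC0.RVS_GEI : RVS.GEI_stmt :=
  RVS.GEI RTC0.RVS_GEP RTC0.RVS_GHP RTC0.RVS_GTC RTC0.RVS_MA RTC0.RVS_MI RTC0.RVS_BA1 RTC0.RVS_BD1
theorem RTC0.RVS_GQL : RVS.GQL_stmt :=
  RVS.GQL RTC0.RVS_BA1 RTC0.RVS_BA2 RTC0.RVS_BA3 RTC0.RVS_LPI RTC0.RVS_LMB RTC0.RVS_VLM RTC0.RVS_GLB
theorem RTC0.RVS_GEN : RVS.GEN_stmt :=
  RVS.GEN RTC0.RVS_GEI RTC0.RVS_GQL RTC0.RVS_GTC RTC0.RVS_REG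
theorem RTC0.RVS_GVA : RVS.GVA_stmt :=
  RVS.GVA RTC0.RVS_GLB
theorem RTC0.RVS_GML : RVS.GML_stmt :=
  RVS.GML RTC0.RVS_GAL RTC0.RVS_GQE RTC0.RVS_GTH RTC0.RVS_GLB RTC0.RVS_GGR RTC0.RVS_GMF RTC0.RVS_GM1 RTC0.RVS_GCN RTC0.RVS_GEN RTC0.RVS_GVA
theorem RTC0.RVS_GFM : RVS.GFM_stmt :=
  RVS.GFM RTC0.RVS_BA1 RTC0.RVS_BA2 RTC0.RVS_GLB
theorem RTC0.RZA_ZCI : RZA.ZCI_stmt :=
  RZA.ZCI 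
theorem RTC0.RZA_PSZ : RZA.PSZ_stmt :=
  RZA.PSZ 
theorem RTC0.RZC_KSB : RZC.KSB_stmt :=
  RZC.KSB 
theorem RTC0.RZA_CXE : RZA.CXE_stmt :=
  RZA.CXE RTC0.RZA_PSZ RTC0.RZC_KSB RTC0.RVS_BA1 RTC0.RVS_BA3
theorem RTC0.RTP_UNQ : RTP.UNQ_stmt :=
  RTP.UNQ 
theorem RTC0.RZA_CXU : RZA.CXU_stmt :=
  RZA.CXU RTC0.RTP_UNQ RTC0.RZC_KSB RTC0.RTDC_ITR V3.KO0
theorem RTC0.RTQ_EXR : RTQ.EXR_stmt :=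
  RTQ.EXR 
theorem RTC0.RZC_KIN : RZC.KIN_stmt :=
  RZC.KIN V3.KO0 V3A.KO1_v V3A.KO3_v
theorem RTC0.RZC_PHL : RZC.PHL_stmt :=
  RZC.PHL RTC0.RZC_KIN RTC0.RZC_KSB RTC0.RTDC_ITR V3.KO0
theorem RTC0.RZC_GJU : RZC.GJU_stmt :=
  RZC.GJU RTC0.RZC_PHL RTC0.RZC_KSB RTC0.RTDC_ITR V3.KO0
theorem RTC0.RZA_CXS : RZA.CXS_stmt :=
  RZA.CXS RTC0.RTQ_EXR RTC0.RZC_KSB RTC0.RTDC_ITR V3A.KO1_v V3A.KO3_v RTC0.RZC_GJU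
theorem RTC0.RZA_GSP : RZA.GSP_stmt :=
  RZA.GSP RTC0.RVS_GSE RTC0.RVS_BA1 V3A.TUL_v
theorem RTC0.RZA_RTN : RZA.RTN_stmt :=
  RZA.RTN RTC0.RVS_GLB RTC0.RVS_BA1
theorem RTC0.RZA_FBA : RZA.FBA_stmt :=
  RZA.FBA RTC0.RZA_PSZ RTC0.RVS_BA1 RTC0.RVS_BD1
theorem RTC0.RZA_GIX : RZA.GIX_stmt :=
  RZA.GIX RTC0.RZA_PSZ RTC0.RZA_CXE RTC0.RZA_CXU RTC0.RZA_CXS RTC0.RZA_GSP RTC0.RZA_RTN RTC0.RZA_FBA RTC0.RZC_KSB RTC0.RVS_BA1 RTC0.RVS_SCH V3A.KO1_v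
theorem RTC0.RZC_BEX : RZC.BEX_stmt :=
  RZC.BEX RTC0.RZC_GJU
theorem RTC0.RTQ_BRG : RTQ.BRG_stmt :=
  RTQ.BRG RTC0.RTDC_ITR V3.KO0
theorem RTC0.RZC_BBG : RZC.BBG_stmt :=
  RZC.BBG RTC0.RZC_GJU RTC0.RZC_PHL RTC0.RZC_KSB RTC0.RTQ_BRG RTC0.RTDC_ITR V3A.KO3_v
theorem RTC0.RZC_BWB : RZC.BWB_stmt :=
  RZC.BWB RTC0.RZC_BBG RTC0.RTQ_EXR
theorem RTC0.RZC_AXD : RZC.AXD_stmt :=
  RZC.AXD RTC0.RZC_PHL RTC0.RZC_GJU RTC0.RZC_KSB V3A.KO3_v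
theorem RTC0.RZC_BPL : RZC.BPL_stmt :=
  RZC.BPL RTC0.RZC_GJU RTC0.RZC_AXD RTC0.RZC_KSB RTC0.RTQ_BRG V3A.KO1_v V3A.KO3_v
theorem RTC0.RZC_BRH : RZC.BRH_stmt :=
  RZC.BRH RTC0.RZC_BPL RTC0.RZC_BWB RTC0.RTQ_EXR RTC0.RTQ_BRG RTC0.RTDH_NRU
theorem RTC0.RZC_AXS : RZC.AXS_stmt :=
  RZC.AXS RTC0.RZC_PHL RTC0.RZC_GJU RTC0.RZC_KSB V3.KO0 V3A.KO1_v V3A.KO3_v
theorem RTC0.RZC_AXT : RZC.AXT_stmt :=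
  RZC.AXT RTC0.RZC_AXS RTC0.RZC_KSB
theorem RTC0.RZC_BLO : RZC.BLO_stmt :=
  RZC.BLO RTC0.RZC_AXT
theorem RTC0.RZC_BLJ : RZC.BLJ_stmt :=
  RZC.BLJ RTC0.RZC_BLO RTC0.RZC_AXS RTC0.RZC_PHL RTC0.RZC_KSB
theorem RTC0.RZC_BUP : RZC.BUP_stmt :=
  RZC.BUP RTC0.RZC_AXS RTC0.RZC_AXT RTC0.RZC_KSB
theorem RTC0.RZC_BCL : RZC.BCL_stmt :=
  RZC.BCL RTC0.RZC_BLJ RTC0.RZC_BUP RTC0.RZC_BPL RTC0.RZC_GJU RTC0.RZC_KSB RTC0.RTQ_BRG V3A.KO1_v V3A.KO3_v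
theorem RTC0.RZC_GIM : RZC.GIM_stmt :=
  RZC.GIM 
theorem RTC0.RTP_MPB : RTP.MPB_stmt :=
  RTP.MPB 
theorem RTC0.RZP_NIB : RZP.NIB_stmt :=
  RZP.NIB 
theorem RTC0.RZP_OML : RZP.OML_stmt :=
  RZP.OML RTC0.RTP_MPB RTC0.RZP_NIB V3.TMO V3A.THU_v
theorem RTC0.RZC_PZA : RZC.PZA_stmt :=
  RZC.PZA RTC0.RZC_BEX RTC0.RZC_BBG RTC0.RZC_BWB RTC0.RZC_BPL RTC0.RZC_BRH RTC0.RZC_BCL RTC0.RZC_GIM RTC0.RZP_OML V3A.TUL_v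
theorem RTC0.RZC_CHL : RZC.CHL_stmt :=
  RZC.CHL RTC0.RZC_GJU RTC0.RZC_AXD RTC0.RZC_KSB RTC0.RZP_OML RTC0.RTQ_BRG V3A.KO1_v V3A.KO3_v V3.TMO V3.TDE V3A.THU_v
theorem RTC0.RZC_APX : RZC.APX_stmt :=
  RZC.APX RTC0.RZC_CHL RTC0.RZC_AXD RTC0.RZC_GJU RTC0.RZC_KSB RTC0.RZP_OML RTC0.RTP_UNQ RTC0.RTQ_BRG
theorem RTC0.RTP_LFL : RTP.LFL_stmt :=
  RTP.LFL 
theorem RTC0.RZC_NFR : RZC.NFR_stmt :=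
  RZC.NFR RTC0.RZC_APX RTC0.RTP_UNQ RTC0.RTP_LFL RTC0.RZP_OML
theorem RTC0.RZW_OMB : RZW.OMB_stmt :=
  RZW.OMB RTC0.RZP_NIB
theorem RTC0.RZW_RTA : RZW.RTA_stmt :=
  RZW.RTA RTC0.RTP_MPB RTC0.RZP_NIB RTC0.RZW_OMB V3A.KO3_v V3.TMO V3.TDE V3A.THU_v
theorem RTC0.RZP_NIC : RZP.NIC_stmt :=
  RZP.NIC 
theorem RTC0.RZW_RTB : RZW.RTB_stmt :=
  RZW.RTB RTC0.RTP_MPB RTC0.RZP_NIB RTC0.RZP_NIC RTC0.RZW_OMB V3.KO0 V3A.KO1_v V3.TDE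
theorem RTC0.RZW_RTG : RZW.RTG_stmt :=
  RZW.RTG RTC0.RZW_RTA RTC0.RZW_RTB RTC0.RZW_OMB
theorem RTC0.RZW_RET : RZW.RET_stmt :=
  RZW.RET RTC0.RZW_RTG RTC0.RTP_MPB RTC0.RZP_NIB RTC0.RZW_OMB
theorem RTC0.RZC_ROT : RZC.ROT_stmt :=
  RZC.ROT RTC0.RZC_BUP RTC0.RZC_PHL RTC0.RZC_KSB RTC0.RZC_CHL RTC0.RZW_RET RTC0.RTP_UNQ RTC0.RTQ_BRG RTC0.RTDC_ITR RTC0.RZP_OML
theorem RTC0.RTP_AUT : RTP.AUT_stmt :=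
  RTP.AUT 
theorem RTC0.RTP_EXA : RTP.EXA_stmt :=
  RTP.EXA RTC0.RTP_UNQ RTC0.RTP_AUT
theorem RTC0.RZC_NHD : RZC.NHD_stmt :=
  RZC.NHD RTC0.RZC_APX RTC0.RZC_ROT RTC0.RTP_EXA RTC0.RZP_OML
theorem RTC0.RZC_EXS : RZC.EXS_stmt :=
  RZC.EXS RTC0.RTP_MPB RTC0.RZP_OML RTC0.RZP_NIB RTC0.RTQ_BRG V3A.KO3_v
theorem RTC0.RZC_EXW : RZC.EXW_stmt :=
  RZC.EXW RTC0.RZC_CHL RTC0.RZC_PHL RTC0.RZC_KSB RTC0.RTP_UNQ RTC0.RTDC_ITR RTC0.RZP_OML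
theorem RTC0.RZC_EXB : RZC.EXB_stmt :=
  RZC.EXB RTC0.RZC_EXS RTC0.RZC_EXW V3.KO0 RTC0.RTDC_ITR
theorem RTC0.RZC_EXG : RZC.EXG_stmt :=
  RZC.EXG RTC0.RTP_UNQ RTC0.RZC_KSB RTC0.RTDC_ITR V3.KO0
theorem RTC0.RZC_NHU : RZC.NHU_stmt :=
  RZC.NHU RTC0.RZC_EXB RTC0.RZC_EXG
theorem RTC0.RZA_HLZ : RZA.HLZ_stmt :=
  RZA.HLZ RTC0.RTQ_BRG RTC0.RTDH_HOL RTC0.RZP_NIC RTC0.RTDC_ITR
theorem RTC0.RZP_YEX : RZP.YEX_stmt :=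
  RZP.YEX RTC0.RZP_OML
theorem RTC0.RZP_OMB : RZP.OMB_stmt :=
  RZP.OMB RTC0.RZP_NIB
theorem RTC0.RZP_BAS : RZP.BAS_stmt :=
  RZP.BAS RTC0.RTP_MPB RTC0.RZP_OMB XPA.INVL_t
theorem RTC0.RZP_RTA : RZP.RTA_stmt :=
  RZP.RTA RTC0.RTP_MPB RTC0.RZP_NIB RTC0.RZP_OMB V3A.KO3_v V3.TMO V3.TDE V3A.THU_v
theorem RTC0.RZP_RTB : RZP.RTB_stmt :=
  RZP.RTB RTC0.RTP_MPB RTC0.RZP_NIB RTC0.RZP_NIC RTC0.RZP_OMB V3.KO0 V3A.KO1_v V3.TDE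
theorem RTC0.RZP_RTG : RZP.RTG_stmt :=
  RZP.RTG RTC0.RZP_RTA RTC0.RZP_RTB RTC0.RZP_OMB
theorem RTC0.RZP_RET : RZP.RET_stmt :=
  RZP.RET RTC0.RZP_RTG RTC0.RTP_MPB RTC0.RZP_NIB RTC0.RZP_OMB
theorem RTC0.RTP_CMT : RTP.CMT_stmt :=
  RTP.CMT 
theorem RTC0.RZP_TRN : RZP.TRN_stmt :=
  RZP.TRN RTC0.RZP_RET RTC0.RTP_AUT RTC0.RTP_CMT RTC0.RZP_OMB RTC0.RTP_MPB
theorem RTC0.RZP_CLV : RZP.CLV_stmt :=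
  RZP.CLV RTC0.RZP_TRN RTC0.RZP_RET RTC0.RZP_OMB RTC0.RTP_MPB RTC0.RTP_CMT
theorem RTC0.RZP_MUM : RZP.MUM_stmt :=
  RZP.MUM RTC0.RZP_TRN RTC0.RTP_CMT RTC0.RTP_MPB RTC0.RZP_OMB RTC0.RZP_BAS RTC0.RZP_RET RTC0.RTP_AUT XPA.INVL_t
theorem RTC0.RZP_DEN : RZP.DEN_stmt :=
  RZP.DEN RTC0.RZP_CLV RTC0.RZP_MUM RTC0.RZP_RET RTC0.RTP_AUT RTC0.RTP_UNQ RTC0.RZP_BAS RTC0.RZP_OMB RTC0.RTP_MPB V3A.TUL_v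
theorem RTC0.RZQ_FLB : RZQ.FLB_stmt :=
  RZQ.FLB RTC0.RTP_MPB
theorem RTC0.RZQ_DAT : RZQ.DAT_stmt :=
  RZQ.DAT RTC0.RZQ_FLB RTC0.RZP_RET RTC0.RTP_UNQ RTC0.RZP_OMB RTC0.RTP_MPB
theorem RTC0.RTQ_RCR : RTQ.RCR_stmt :=
  RTQ.RCR 
theorem RTC0.RTQ_STK : RTQ.STK_stmt :=
  RTQ.STK RTC0.RTQ_RCR
theorem RTC0.RTQ_ALG : RTQ.ALG_stmt :=
  RTQ.ALG RTC0.RTQ_BRG
theorem RTC0.RTQ_PBM : RTQ.PBM_stmt :=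
  RTQ.PBM RTC0.RTQ_ALG
theorem RTC0.RZQ_DUB : RZQ.DUB_stmt :=
  RZQ.DUB RTC0.RZP_RTA RTC0.RZP_OMB V3A.TUL_v
theorem RTC0.RZQ_RSD : RZQ.RSD_stmt :=
  RZQ.RSD RTC0.RZQ_FLB RTC0.RZQ_DUB RTC0.RZP_RTA RTC0.RZP_OMB RTC0.RTP_MPB V3A.TUL_v
theorem RTC0.RTQ_GTL : RTQ.GTL_stmt :=
  RTQ.GTL RTC0.RTQ_BRG RTC0.RTQ_ALG RTC0.RTP_MPB
theorem RTC0.RTK_PFR : RTK.PFR_stmt :=
  RTK.PFR RTC0.RTF_RPRB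
theorem RTC0.RTK_RANR : RTK.RANR_stmt :=
  RTK.RANR RTC0.RTF_RPRB
theorem RTC0.RTK_TPL : RTK.TPL_stmt :=
  RTK.TPL RTC0.RTK_PFR RTC0.RTK_RANR
theorem RTC0.RTK_KIN : RTK.KIN_stmt :=
  RTK.KIN 
theorem RTC0.RTK_KUN : RTK.KUN_stmt :=
  RTK.KUN 
theorem RTC0.RTF_RMCV : RTF.RMCV_stmt :=
  RTF.RMCV RTC0.RTF_RPRB RTC0.RTF_RMS
theorem RTC0.RTK_TKK : RTK.TKK_stmt :=
  RTK.TKK RTC0.RTK_TPL RTC0.RTK_KIN RTC0.RTK_KUN RTC0.RTF_RMS RTC0.RTF_RMCV RTC0.RTF_RPRB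
theorem RTC0.RTK_CBR : RTK.CBR_stmt :=
  RTK.CBR RTC0.RTF_RPRB RTC0.RTF_RMS RTC0.RTF_RMCV
theorem RTC0.RTK_NBR : RTK.NBR_stmt :=
  RTK.NBR RTC0.RTF_RMS RTC0.RTF_RMCV
theorem RTC0.RTK_IPR : RTK.IPR_stmt :=
  RTK.IPR RTC0.RTK_CBR RTC0.RTK_NBR
theorem RTC0.RTK_ORB : RTK.ORB_stmt :=
  RTK.ORB RTC0.RTK_TKK RTC0.RTK_KIN RTC0.RTK_IPR RTC0.RTF_RPRB
theorem RTC0.RTK_IPG : RTK.IPG_stmt :=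
  RTK.IPG RTC0.RTK_CBR RTC0.RTK_NBR
theorem RTC0.RTK_ORBG : RTK.ORBG_stmt :=
  RTK.ORBG RTC0.RTK_ORB RTC0.RTK_KIN RTC0.RTK_IPG RTC0.RTF_RPRB
theorem RTC0.RTQ_ORC : RTQ.ORC_stmt :=
  RTQ.ORC RTC0.RTK_TPL RTC0.RTF_RPRB
theorem RTC0.RTQ_VLC : RTQ.VLC_stmt :=
  RTQ.VLC RTC0.RTK_KIN
theorem RTC0.RTQ_KNI : RTQ.KNI_stmt :=
  RTQ.KNI 
theorem RTC0.RZQ_GLB : RZQ.GLB_stmt :=
  RZQ.GLB RTC0.RZQ_FLB RTC0.RTP_MPB V3A.KO1_v V3A.KO3_v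
theorem RTC0.RZQ_AVZ : RZQ.AVZ_stmt :=
  RZQ.AVZ RTC0.RZQ_GLB RTC0.RZQ_FLB RTC0.RTQ_BRG RTC0.RTP_MPB V3A.KO3_v
theorem RTC0.RZQ_ENA : RZQ.ENA_stmt :=
  RZQ.ENA RTC0.RTK_ORBG RTC0.RTQ_ORC RTC0.RTQ_VLC RTC0.RTQ_KNI RTC0.RZQ_AVZ RTC0.RTQ_BRG RTC0.RTK_KIN
theorem RTC0.RZP_CNL : RZP.CNL_stmt :=
  RZP.CNL RTC0.RZP_YEX RTC0.RZP_BAS RTC0.RZP_CLV RTC0.RZP_MUM
theorem RTC0.RZQ_NUB : RZQ.NUB_stmt :=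
  RZQ.NUB RTC0.RZP_CNL
theorem RTC0.RTDB_EGR : RTDB.EGR_stmt :=
  RTDB.EGR RTC0.RTF_RMS RTC0.RTF_RMCV
theorem RTC0.RZQ_ENG : RZQ.ENG_stmt :=
  RZQ.ENG RTC0.RZQ_ENA RTC0.RTQ_ALG RTC0.RZQ_NUB RTC0.RTDB_EGR RTC0.RTK_KIN
theorem RTC0.RTQ_NAU : RTQ.NAU_stmt :=
  RTQ.NAU 
theorem RTC0.RZQ_RCT : RZQ.RCT_stmt :=
  RZQ.RCT RTC0.RTQ_NAU RTC0.RZP_RET RTC0.RZP_RTA RTC0.RZP_OMB RTC0.RZP_NIB RTC0.RTP_MPB V3A.TUL_v V3A.KO1_v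
theorem RTC0.RZQ_MAS : RZQ.MAS_stmt :=
  RZQ.MAS RTC0.RZQ_RCT RTC0.RZQ_GLB RTC0.RZQ_FLB RTC0.RZP_OMB RTC0.RTP_MPB
theorem RTC0.RZQ_UIN : RZQ.UIN_stmt :=
  RZQ.UIN RTC0.RZQ_MAS RTC0.RZQ_GLB RTC0.RTQ_ALG RTC0.RZQ_NUB RTC0.RZQ_ENA
theorem RTC0.RZQ_PFX : RZQ.PFX_stmt :=
  RZQ.PFX RTC0.RTQ_BRG RTC0.RTP_MPB RTC0.RZP_NIB RTC0.RZP_OMB
theorem RTC0.RTF_RLVG : RTF.RLVG_stmt :=
  RTF.RLVG 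
theorem RTC0.RZQ_LVD : RZQ.LVD_stmt :=
  RZQ.LVD RTC0.RTQ_GTL RTC0.RZQ_ENG RTC0.RZQ_RCT RTC0.RZQ_UIN RTC0.RZQ_PFX RTC0.RZQ_NUB RTC0.RTQ_ALG RTC0.RTF_RLVG RTC0.RTF_RMA RTC0.RTF_RMI RTC0.RZP_NIB RTC0.RZP_OMB RTC0.RTP_MPB
theorem RTC0.RZQ_SHF : RZQ.SHF_stmt :=
  RZQ.SHF RTC0.RTQ_ALG RTC0.RZQ_LVD RTC0.RZQ_UIN RTC0.RZP_RET RTC0.RTP_UNQ RTC0.RZP_OMB RTC0.RTP_MPB
theorem RTC0.RZQ_CNB : RZQ.CNB_stmt :=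
  RZQ.CNB RTC0.RZQ_FLB RTC0.RZQ_DUB RTC0.RTP_MPB
theorem RTC0.RZQ_DEC : RZQ.DEC_stmt :=
  RZQ.DEC RTC0.RZQ_MAS RTC0.RZQ_GLB RTC0.RTQ_ALG RTC0.RZQ_NUB RTC0.RZQ_ENA
theorem RTC0.RZQ_LIM : RZQ.LIM_stmt :=
  RZQ.LIM RTC0.RZQ_DEC RTC0.RTQ_ALG V3.TMO
theorem RTC0.RZQ_SSG : RZQ.SSG_stmt :=
  RZQ.SSG RTC0.RZP_OMB RTC0.RTP_EXA
theorem RTC0.RZQ_PBD : RZQ.PBD_stmt :=
  RZQ.PBD RTC0.RZQ_FLB RTC0.RZQ_SSG RTC0.RZP_RET RTC0.RTP_UNQ RTC0.RZP_OMB RTC0.RTP_MPB V3A.TUL_v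
theorem RTC0.RZP_BST : RZP.BST_stmt :=
  RZP.BST RTC0.RZP_OMB RTC0.RZP_RET RTC0.RTP_EXA
theorem RTC0.RZP_SST : RZP.SST_stmt :=
  RZP.SST RTC0.RZP_OMB RTC0.RTP_AUT RTC0.RTP_EXA
theorem RTC0.RZP_CNU : RZP.CNU_stmt :=
  RZP.CNU V3A.TUL_v RTC0.RTP_MPB RTC0.RZP_OMB RTC0.RZP_YEX RTC0.RZP_BAS RTC0.RZP_DEN RTC0.RZP_BST RTC0.RZP_SST RTC0.RZP_RET RTC0.RTP_UNQ RTC0.RZP_TRN RTC0.RZP_MUM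
theorem RTC0.RZQ_JMP : RZQ.JMP_stmt :=
  RZQ.JMP RTC0.RTQ_STK RTC0.RTQ_PBM RTC0.RZQ_RSD RTC0.RZQ_SHF RTC0.RZQ_CNB RTC0.RZQ_NUB RTC0.RZQ_LIM RTC0.RZQ_GLB RTC0.RZQ_PFX RTC0.RZQ_PBD RTC0.RTQ_ALG RTC0.RZP_CNU RTC0.RZP_CNL RTC0.RZP_BST RTC0.RZP_OMB RTC0.RTP_MPB
theorem RTC0.RZQ_AFB : RZQ.AFB_stmt :=
  RZQ.AFB RTC0.RZQ_DEC RTC0.RZQ_LIM RTC0.RZQ_PBD RTC0.RZQ_PFX RTC0.RZP_BST V3A.TUL_v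
theorem RTC0.RZQ_INV : RZQ.INV_stmt :=
  RZQ.INV RTC0.RZQ_LVD RTC0.RZQ_LIM RTC0.RZQ_PFX RTC0.RZP_OMB RTC0.RTP_MPB RTC0.RZP_NIB V3.TDE
theorem RTC0.RZQ_BCO : RZQ.BCO_stmt :=
  RZQ.BCO RTC0.RZQ_INV RTC0.RZQ_PBD RTC0.RZQ_LIM RTC0.RZQ_PFX RTC0.RZP_RET RTC0.RTP_UNQ RTC0.RZP_OMB
theorem RTC0.RZQ_NZB : RZQ.NZB_stmt :=
  RZQ.NZB RTC0.RZQ_JMP RTC0.RZQ_AFB RTC0.RZQ_BCO RTC0.RZP_BST
theorem RTC0.RZP_MXS : RZP.MXS_stmt :=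
  RZP.MXS RTC0.RZP_OMB RTC0.RTP_UNQ RTC0.RZP_BST
theorem RTC0.RTQ_BVZ : RTQ.BVZ_stmt :=
  RTQ.BVZ 
theorem RTC0.RTQ_UBD : RTQ.UBD_stmt :=
  RTQ.UBD RTC0.RTQ_BVZ
theorem RTC0.RZQ_GUB : RZQ.GUB_stmt :=
  RZQ.GUB RTC0.RZQ_GLB RTC0.RZQ_FLB RTC0.RZQ_DUB RTC0.RTP_MPB
theorem RTC0.RZQ_PNI : RZQ.PNI_stmt :=
  RZQ.PNI RTC0.RZQ_GLB RTC0.RZQ_GUB RTC0.RZQ_FLB RTC0.RZP_OMB RTC0.RTP_MPB
theorem RTC0.RZQ_RMZ : RZQ.RMZ_stmt :=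
  RZQ.RMZ RTC0.RZQ_LIM RTC0.RTQ_ALG RTC0.RZQ_ENA RTC0.RZQ_NUB
theorem RTC0.RZP_RTP : RZP.RTP_stmt :=
  RZP.RTP RTC0.RTP_MPB
theorem RTC0.RZP_ALS : RZP.ALS_stmt :=
  RZP.ALS RTC0.RTP_MPB RTC0.RZP_OMB RTC0.RZP_RET RTC0.RTP_AUT RTC0.RTP_UNQ RTC0.RZP_RTP
theorem RTC0.RTP_GLU : RTP.GLU_stmt :=
  RTP.GLU RTC0.RTP_UNQ
theorem RTC0.RZP_BDP : RZP.BDP_stmt :=
  RZP.BDP RTC0.RZP_OMB RTC0.RTP_LFL RTC0.RZP_ALS RTC0.RTP_EXA RTC0.RTP_GLU RTC0.RTP_UNQ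
theorem RTC0.RZQ_GPT : RZQ.GPT_stmt :=
  RZQ.GPT RTC0.RTQ_UBD RTC0.RZQ_PNI RTC0.RZQ_RMZ RTC0.RZQ_LIM RTC0.RZP_BDP
theorem RTC0.RTQ_NCH : RTQ.NCH_stmt :=
  RTQ.NCH 
theorem RTC0.RTQ_LOC : RTQ.LOC_stmt :=
  RTQ.LOC RTC0.RTQ_NCH
theorem RTC0.RZQ_LOA : RZQ.LOA_stmt :=
  RZQ.LOA RTC0.RZQ_GPT RTC0.RTQ_LOC RTC0.RZQ_LIM
theorem RTC0.RZQ_TQO : RZQ.TQO_stmt :=
  RZQ.TQO RTC0.RZP_OMB RTC0.RZP_NIB RTC0.RTP_MPB V3.TDE V3A.TUL_v RTC0.RZQ_LIM RTC0.RTQ_ALG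
theorem RTC0.RZQ_LVS : RZQ.LVS_stmt :=
  RZQ.LVS RTC0.RZQ_TQO RTC0.RZQ_ENG RTC0.RZQ_RCT RTC0.RZP_CNU RTC0.RTQ_ALG RTC0.RTQ_BRG RTC0.RTF_RLVG RTC0.RTF_RMA RTC0.RTF_RMI MPS.HSM_ok RTC0.RZP_OMB RTC0.RTP_MPB
theorem RTC0.RZQ_PPA : RZQ.PPA_stmt :=
  RZQ.PPA RTC0.RZQ_LVD RTC0.RZQ_LIM RTC0.RZP_OMB RTC0.RZP_NIB RTC0.RTP_MPB V3A.KO3_v
theorem RTC0.RZQ_PPB : RZQ.PPB_stmt :=
  RZQ.PPB RTC0.RZQ_PPA RTC0.RZQ_RCT RTC0.RZP_CNU RTC0.RZP_OMB RTC0.RZP_NIB RTC0.RTP_MPB V3A.KO1_v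
theorem RTC0.RZQ_TSU : RZQ.TSU_stmt :=
  RZQ.TSU RTC0.RZQ_LVS RTC0.RZQ_PPB RTC0.RZQ_ENG RTC0.RZQ_NUB RTC0.RTQ_ALG RTC0.RTQ_BRG RTC0.RZP_OMB RTC0.RZP_NIB RTC0.RTP_MPB
theorem RTC0.RZQ_CSA : RZQ.CSA_stmt :=
  RZQ.CSA RTC0.RZQ_TSU RTC0.RTF_CSR RTC0.RTQ_BRG
theorem RTC0.RZQ_TWX : RZQ.TWX_stmt :=
  RZQ.TWX RTC0.RTQ_NCH RTC0.RZQ_LIM RTC0.RTQ_ALG RTC0.RZP_OMB RTC0.RZP_NIB RTC0.RTP_MPB XPA.INVL_t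
theorem RTC0.RZQ_EXG : RZQ.EXG_stmt :=
  RZQ.EXG 
theorem RTC0.RZQ_EXZ : RZQ.EXZ_stmt :=
  RZQ.EXZ RTC0.RZQ_CSA RTC0.RZQ_TWX RTC0.RZQ_EXG RTC0.RZQ_LIM RTC0.RTQ_ALG RTC0.RZP_NIC RTC0.RZP_OMB RTC0.RTP_MPB V3A.KO3_v V3.TMO V3.TDE XPA.INVL_t
theorem RTC0.RZQ_TOP : RZQ.TOP_stmt :=
  RZQ.TOP RTC0.RZQ_EXZ RTC0.RZP_OMB
theorem RTC0.RTP_PER : RTP.PER_stmt :=
  RTP.PER RTC0.RTP_UNQ RTC0.RTP_EXA RTC0.RTP_AUT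
theorem RTC0.RZP_PHP : RZP.PHP_stmt :=
  RZP.PHP RTC0.RZP_OMB RTC0.RTP_AUT RTC0.RTP_EXA RTC0.RTP_UNQ RTC0.RTP_PER
theorem RTC0.RTP_ISO : RTP.ISO_stmt :=
  RTP.ISO V3.KO0 V3A.KO1_v
theorem RTC0.RZP_PHE : RZP.PHE_stmt :=
  RZP.PHE RTC0.RZP_PHP RTC0.RTP_ISO RTC0.RTP_MPB RTC0.RZP_OMB V3.TMO
theorem RTC0.RZQ_HPC : RZQ.HPC_stmt :=
  RZQ.HPC RTC0.RZP_PHE RTC0.RZQ_PNI RTC0.RZQ_RMZ
theorem RTC0.RZQ_GEN : RZQ.GEN_stmt :=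
  RZQ.GEN RTC0.RZP_YEX RTC0.RZP_BAS RTC0.RZP_DEN RTC0.RZQ_DAT RTC0.RZQ_NZB RTC0.RZP_MXS RTC0.RZQ_BCO RTC0.RZQ_LOA RTC0.RZQ_TOP RTC0.RZQ_HPC RTC0.RTP_UNQ RTC0.RZP_OMB
theorem RTC0.RZA_CON : RZA.CON_stmt :=
  RZA.CON RTC0.RZC_PZA RTC0.RZC_NFR RTC0.RZC_NHD RTC0.RZC_NHU RTC0.RZA_HLZ RTC0.RZQ_GEN
theorem RTC0.RZA_GZ0 : RZA.GZ0_stmt :=
  RZA.GZ0 RTC0.RZA_ZCI RTC0.RZA_GIX RTC0.RZA_CON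
theorem RTC0.RVS_END0 : RVS.END0_stmt :=
  RVS.GEND0 RTC0.RVS_GGL RTC0.RVS_GML V3A.ENDG_v RTC0.RVS_GFM RTC0.RZA_GZ0
theorem RTC0.RVS_Z1 : RVS.Z1_stmt :=
  RVS.Z1 RTC0.RVS_GLB RTC0.RVS_GGL RTC0.RVS_GAL RTC0.RVS_GMF RTC0.RVS_GCN RTC0.RVS_GFM V3A.REMO_v V3.AFF2 V3.FPOL
theorem RTC0.RVS_V3R0 : RVS.V3R0_stmt :=
  RVS.V3R0 RTC0.RVS_LOKA RTC0.RVS_LOVA RTC0.RVS_END0 RTC0.RVS_Z1
theorem RTC0.RVS_B0B : RVS.B0B_stmt :=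
  RVS.B0B RTC0.RVS_KRE
theorem RTC0.RVS_REB : RVS.REB_stmt :=
  RVS.REB RTC0.RVS_B0B MPS.NM_ok
theorem RTC0.RVS_FPB : RVS.FPB_stmt :=
  RVS.FPB RTC0.RTDC_ITR
theorem RTC0.RVS_WRC0 : RVS.WRC0_stmt :=
  RVS.WRC0 RTC0.RVS_V3R0 RTC0.RVS_REB RTC0.RVS_FPB RTC0.RTDC_ITR
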